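import Mathlib
import Pool.Agent.R272.Chi.Defs
import Pool.Agent.R272.Chi.Fin

set_option autoImplicit false

namespace Pool.Agent.Results.MP_22eee4_an.RealChiCounterexample

open Pool.Agent.R272.Chi

/-- Disproof of Q1: there is a real sequence `a` satisfying the `χ` inequality
`(j+1) a_j + a_i ≥ (j+1) i` for all `i, j ≥ 1` whose reciprocal sum (which is finite) is strictly
larger than the (finite) reciprocal sum of the greedy sequence `χ`. -/
theorem result : ∃ a : ℕ → ℝ,
    (∀ i j : ℕ, 1 ≤ i → 1 ≤ j → ((j : ℝ) + 1) * i ≤ ((j : ℝ) + 1) * a j + a i) ∧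
    Summable (fun k : ℕ => (1 : ℝ) / (chi (k + 1) : ℝ)) ∧
    Summable (fun k : ℕ => 1 / a (k + 1)) ∧
    ∑' k : ℕ, (1 : ℝ) / (chi (k + 1) : ℝ) < ∑' k : ℕ, 1 / a (k + 1) :=
  main

end Pool.Agent.Results.MP_22eee4_an.RealChiCounterexample
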